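import Mathlib

set_option autoImplicit false
set_option linter.unusedVariables false

namespace Pool.Agent.DEDE

open Set Topology Pointwise

theorem card_fact : Cardinal.aleph0 < Cardinal.aleph 1 := Cardinal.aleph0_lt_aleph_one

/-- omega one -/
def X : Type := (Cardinal.aleph 1 : Cardinal.{0}).ord.ToType

noncomputable instance : LinearOrder X :=
  inferInstanceAs (LinearOrder (Cardinal.aleph 1 : Cardinal.{0}).ord.ToType)
instance : WellFoundedLT X :=
  inferInstanceAs (WellFoundedLT (Cardinal.aleph 1 : Cardinal.{0}).ord.ToType)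
instance : NoMaxOrder X := Cardinal.noMaxOrder card_fact.le

theorem mk_X : Cardinal.mk X = Cardinal.aleph 1 := by
  show Cardinal.mk ((Cardinal.aleph 1 : Cardinal.{0}).ord.ToType) = _
  simp

instance : Nonempty X := by
  rw [← Cardinal.mk_ne_zero_iff, mk_X]
  exact (Cardinal.aleph0_pos.trans card_fact).ne'

theorem bdd (f : ℕ → X) : ∃ b, ∀ i, f i ≤ b := by
  let f' : ℕ → (Cardinal.aleph 1 : Cardinal.{0}).ord.ToType := f
  let g : ℕ → Ordinal.{0} := fun i => (Ordinal.ToType.mk.symm (f' i)).1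
  have hg : ∀ i, g i < (Cardinal.aleph 1 : Cardinal.{0}).ord :=
    fun i => (Ordinal.ToType.mk.symm (f' i)).2
  have hsup : iSup g < (Cardinal.aleph 1 : Cardinal.{0}).ord :=
    Ordinal.iSup_lt_of_lt_cof (by
      rw [Cardinal.isRegular_aleph_one.cof_ord, Cardinal.mk_nat]
      exact card_fact) hg
  refine ⟨(Ordinal.ToType.mk ⟨iSup g, hsup⟩ : (Cardinal.aleph 1 : Cardinal.{0}).ord.ToType),
    fun i => ?_⟩
  show f' i ≤ Ordinal.ToType.mk ⟨iSup g, hsup⟩
  rw [← OrderIso.symm_apply_le]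
  show g i ≤ iSup g
  exact Ordinal.le_iSup g i

theorem cnt_Iio (x : X) : (Iio x).Countable := by
  have h : Cardinal.mk (Iio x) < Cardinal.aleph 1 :=
    Cardinal.mk_Iio_toType_ord_lt (c := Cardinal.aleph 1) x
  rw [← Cardinal.le_aleph0_iff_set_countable]
  have : Cardinal.aleph 1 = Order.succ Cardinal.aleph0 := by
    rw [← Cardinal.aleph_zero, ← Cardinal.aleph_succ]; simp
  rw [this] at h
  exact Order.lt_succ_iff.1 h

/-- long rational line -/
abbrev L : Type := X ×ₗ ℚ

theorem cnt_L (s : L) : (Iio s).Countable := by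
  have h1 : (Iic (ofLex s).1).Countable := by
    rw [← Iio_insert]
    exact (cnt_Iio _).insert _
  have h2 : ((Iic (ofLex s).1) ×ˢ (univ : Set ℚ)).Countable := h1.prod (to_countable _)
  have h3 : (Iio s) ⊆ toLex '' ((Iic (ofLex s).1) ×ˢ (univ : Set ℚ)) := by
    intro y hy
    refine ⟨ofLex y, ⟨?_, mem_univ _⟩, rfl⟩
    have := (Prod.Lex.lt_iff.1 (show y < s from hy))
    rcases this with h | h
    · exact h.le
    · exact h.1.le
  exact (h2.image _).mono h3

theorem bddL (f : ℕ → L) : ∃ B, ∀ n, f n < B := by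
  obtain ⟨b, hb⟩ := bdd (fun n => (ofLex (f n)).1)
  obtain ⟨b', hb'⟩ := exists_gt b
  refine ⟨toLex (b', 0), fun n => ?_⟩
  rw [Prod.Lex.lt_iff]
  left
  exact (hb n).trans_lt hb'

/-- extension by the identity -/
noncomputable def extf (s : L) (t : Iio s ≃o Iio s) (x : L) : L :=
  if h : x < s then (t ⟨x, h⟩).1 else x

theorem extf_mono (s : L) (t : Iio s ≃o Iio s) : StrictMono (extf s t) := by
  intro x y hxy
  unfold extf
  by_cases hy : y < s
  · have hx : x < s := hxy.trans hy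
    simp only [hx, hy, dif_pos]
    have : t ⟨x, hx⟩ < t ⟨y, hy⟩ := t.strictMono (by exact hxy)
    exact this
  · by_cases hx : x < s
    · simp only [hx, hy, dif_pos, dif_neg, not_false_eq_true]
      exact lt_of_lt_of_le (t ⟨x, hx⟩).2 (not_lt.1 hy)
    · simp only [hx, hy, dif_neg, not_false_eq_true]
      exact hxy

theorem extf_inv (s : L) (t : Iio s ≃o Iio s) (x : L) : extf s t (extf s t.symm x) = x := by
  by_cases hx : x < s
  · have h1 : extf s t.symm x = (t.symm ⟨x, hx⟩).1 := by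
      unfold extf
      simp only [hx, dif_pos]
    have h2 : (t.symm ⟨x, hx⟩).1 < s := (t.symm ⟨x, hx⟩).2
    rw [h1]
    unfold extf
    simp only [h2, dif_pos]
    simp
  · have h1 : extf s t.symm x = x := by
      unfold extf
      simp only [hx, dif_neg, not_false_eq_true]
    rw [h1]
    unfold extf
    simp only [hx, dif_neg, not_false_eq_true]

/-- the group -/
def G : Type := L ≃o L

instance : Group G := inferInstanceAs (Group (L ≃o L))

noncomputable def app (g : G) : L → L := fun x => (show L ≃o L from g) x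

theorem app_mul (g h : G) (x : L) : app (g * h) x = app g (app h x) := rfl
theorem app_one (x : L) : app 1 x = x := rfl
theorem app_mono (g : G) {x y : L} (h : x ≤ y) : app g x ≤ app g y :=
  (show L ≃o L from g).monotone h

theorem homog (a b : L) : ∃ g : G, app g a = b := by
  obtain ⟨s, hs⟩ := exists_gt (max a b)
  have ha : a < s := (le_max_left a b).trans_lt hs
  have hb : b < s := (le_max_right a b).trans_lt hs
  have : Countable (Iio s) := (cnt_L s).to_subtype
  have : Nonempty (Iio s) := ⟨⟨a, ha⟩⟩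
  obtain ⟨e⟩ := Order.iso_of_countable_dense (Iio s) ℚ
  let t : Iio s ≃o Iio s :=
    e.trans ((OrderIso.addRight (e ⟨b, hb⟩ - e ⟨a, ha⟩)).trans e.symm)
  have ht : t ⟨a, ha⟩ = ⟨b, hb⟩ := by
    simp only [t, OrderIso.trans_apply, OrderIso.addRight_apply]
    rw [add_sub_cancel, e.symm_apply_apply]
  refine ⟨(StrictMono.orderIsoOfRightInverse (extf s t) (extf_mono s t) (extf s t.symm)
    (extf_inv s t) : L ≃o L), ?_⟩
  show extf s t a = b
  unfold extf
  simp only [ha, dif_pos, ht]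

instance : TopologicalSpace G := TopologicalSpace.generateFrom {W | ∃ a b, W = {h : G | app h a ≤ b}}

theorem isOpen_sub (a b : L) : IsOpen {h : G | app h a ≤ b} :=
  TopologicalSpace.isOpen_generateFrom_of_mem ⟨a, b, rfl⟩

instance : ContinuousMul G where
  continuous_mul := by
    rw [continuous_generateFrom_iff]
    rintro _ ⟨a, b, rfl⟩
    rw [isOpen_iff_mem_nhds]
    rintro ⟨g, h⟩ hgh
    have hgh' : app g (app h a) ≤ b := hgh
    have h1 : IsOpen ({g' : G | app g' (app h a) ≤ b} ×ˢ {h' : G | app h' a ≤ app h a}) :=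
      (isOpen_sub _ _).prod (isOpen_sub _ _)
    refine Filter.mem_of_superset (h1.mem_nhds ⟨hgh', le_refl (app h a)⟩) ?_
    rintro ⟨g', h'⟩ ⟨h2, h3⟩
    show app (g' * h') a ≤ b
    rw [app_mul]
    exact (app_mono g' h3).trans h2

theorem nhd (U : Set G) (hU : IsOpen U) (g0 : G) (hg0 : g0 ∈ U) :
    ∃ M m : L, ∀ h : G, app h M ≤ m → h ∈ U := by
  change TopologicalSpace.GenerateOpen _ U at hU
  induction hU with
  | basic s hs =>
    obtain ⟨a, b, rfl⟩ := hs
    exact ⟨a, b, fun h hh => hh⟩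
  | univ =>
    obtain ⟨x⟩ : Nonempty L := inferInstance
    exact ⟨x, x, fun h hh => mem_univ _⟩
  | inter s t _ _ ihs iht =>
    obtain ⟨M1, m1, h1⟩ := ihs hg0.1
    obtain ⟨M2, m2, h2⟩ := iht hg0.2
    refine ⟨max M1 M2, min m1 m2, fun h hh => ⟨h1 h ?_, h2 h ?_⟩⟩
    · exact (app_mono h (le_max_left _ _)).trans (hh.trans (min_le_left _ _))
    · exact (app_mono h (le_max_right _ _)).trans (hh.trans (min_le_right _ _))
  | sUnion S _ ih =>
    obtain ⟨t, ht, hgt⟩ := hg0
    obtain ⟨M, m, h⟩ := ih t ht hgt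
    exact ⟨M, m, fun g hg => ⟨t, ht, h g hg⟩⟩

theorem right_bdd (U : Set G) (hU : U ∈ 𝓝 (1 : G)) : ∃ F : Set G, F.Countable ∧ U * F = univ := by
  obtain ⟨V, hVU, hV, h1⟩ := mem_nhds_iff.1 hU
  obtain ⟨M, m, hMm⟩ := nhd V hV 1 h1
  choose d hd using fun t : L => homog M t
  obtain ⟨s0⟩ : Nonempty L := inferInstance
  obtain ⟨s, hs⟩ := exists_gt s0
  refine ⟨(fun t => (d t)⁻¹) '' (Iio s), (cnt_L s).image _, ?_⟩
  rw [eq_univ_iff_forall]
  intro x
  rw [Set.mem_mul]
  let t : L := min (app x⁻¹ m) s0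
  refine ⟨x * d t, hVU (hMm _ ?_), (d t)⁻¹, ⟨t, (min_le_right _ _).trans_lt hs, rfl⟩, by simp⟩
  rw [app_mul, hd]
  calc app x t ≤ app x (app x⁻¹ m) := app_mono x (min_le_left _ _)
    _ = app (x * x⁻¹) m := (app_mul _ _ _).symm
    _ = m := by rw [mul_inv_cancel]; rfl

theorem main :
    ¬ (∀ (G : Type) [Group G] [TopologicalSpace G] [ContinuousMul G],
      (∀ U ∈ 𝓝 (1 : G), ∃ F : Set G, F.Countable ∧ U * F = Set.univ) →
      (∀ U ∈ 𝓝 (1 : G), ∃ F : Set G, F.Countable ∧ F * U = Set.univ)) := by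
  intro H
  obtain ⟨a0⟩ : Nonempty L := inferInstance
  obtain ⟨F, hF, hFu⟩ := H G right_bdd {h : G | app h a0 ≤ a0}
    ((isOpen_sub a0 a0).mem_nhds (le_refl a0))
  have hne : F.Nonempty := by
    rw [nonempty_iff_ne_empty]
    rintro rfl
    have : (1 : G) ∈ (∅ : Set G) * {h : G | app h a0 ≤ a0} := by rw [hFu]; exact mem_univ _
    simp at this
  obtain ⟨c, hc⟩ := hF.exists_eq_range hne
  obtain ⟨B, hB⟩ := bddL (fun n => app (c n) a0)
  obtain ⟨x, hx⟩ := homog a0 B
  have hx2 : x ∈ F * {h : G | app h a0 ≤ a0} := by rw [hFu]; exact mem_univ _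
  obtain ⟨y, hy, v, hv, rfl⟩ := Set.mem_mul.1 hx2
  rw [hc] at hy
  obtain ⟨n, rfl⟩ := hy
  rw [app_mul] at hx
  have h1 : app (c n) (app v a0) ≤ app (c n) a0 := app_mono _ hv
  rw [hx] at h1
  exact absurd (hB n) (not_lt.2 h1)

end Pool.Agent.DEDE
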